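import Pool.Agent.N702.AM.Stm
import Pool.Agent.N702.CP.GEN
import Pool.Agent.N702.CP.CEN
import Pool.Agent.N702.CP.BND

/-!
# AM/FAB: finite index subgroups have no homomorphisms to the integers
-/

set_option autoImplicit false

namespace Pool.Agent.N702.AM.FAB

open Pool.Agent.N702.CP
open scoped commutatorElement

lemma el_comm2 {n : ℕ} (i j l : Fin n) (hij : i ≠ j) (hil : i ≠ l) (hlj : l ≠ j) (k b : ℤ) :
    el i j hij (k * b) = ⁅el i l hil k, el l j hlj b⁆ := by
  have h : el i l hil k * el l j hlj b = el i j hij (k * b) * (el l j hlj b * el i l hil k) := by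
    apply Subtype.ext
    change Matrix.transvection i l k * Matrix.transvection l j (b : ℤ) =
      Matrix.transvection i j (k * b) * (Matrix.transvection l j (b : ℤ) * Matrix.transvection i l k)
    unfold Matrix.transvection
    have a1 : Matrix.single i l k * Matrix.single l j (b : ℤ) = Matrix.single i j (k * b) := by
      rw [Matrix.single_mul_single_same]
    have a2 : Matrix.single l j (b : ℤ) * Matrix.single i l k = 0 := by
      rw [Matrix.single_mul_single_of_ne _ _ _ _ hij.symm]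
    have a3 : Matrix.single i j (k * b) * Matrix.single i l k = 0 := by
      rw [Matrix.single_mul_single_of_ne _ _ _ _ hij.symm]
    have a4 : Matrix.single i j (k * b) * Matrix.single l j (b : ℤ) = 0 := by
      rw [Matrix.single_mul_single_of_ne _ _ _ _ hlj.symm]
    simp only [mul_add, add_mul, mul_one, one_mul, a1, a2, a3, a4, add_zero]
    abel
  rw [commutatorElement_def]
  rw [eq_mul_inv_iff_mul_eq, eq_mul_inv_iff_mul_eq, h, mul_assoc]

/-- a bound for the finite quotients which have an abelian normal subgroup of index `k` -/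
lemma bound (n : ℕ) (hn : 3 ≤ n) (k : ℕ) (hk : 0 < k) : ∃ B : ℕ,
    ∀ (Q : Type) [Group Q] [Finite Q] (f : SLZ n →* Q), Function.Surjective f →
    ∀ A : Subgroup Q, (∀ z : Q, z ^ k ∈ A) → (∀ x ∈ A, ∀ y ∈ A, x * y = y * x) →
    Nat.card Q ≤ B := by
  obtain ⟨B, hB⟩ := t_BND t_GEN (t_CEN t_GEN) n hn (k * k) (Nat.mul_pos hk hk)
  refine ⟨B, fun Q _ _ f hf A hA hA2 => hB Q f hf fun i j h => ?_⟩
  obtain ⟨l, hil, hlj⟩ := Pool.Agent.N702.CP.BND.third hn i j
  have hp : ∀ (i j : Fin n) (h : i ≠ j), f (el i j h (k : ℤ)) ∈ A := by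
    intro i j h
    have h1 := Pool.Agent.N702.CP.CENaux.el_zpow i j h 1 (k : ℤ)
    rw [one_mul] at h1
    rw [h1, zpow_natCast, map_pow]
    exact hA _
  push_cast
  rw [el_comm2 i j l h hil hlj, map_commutatorElement, commutatorElement_eq_one_iff_mul_comm]
  exact hA2 _ (hp _ _ _) _ (hp _ _ _)

/-- the case of a normal subgroup -/
lemma normal (n : ℕ) (hn : 3 ≤ n) (Λ : Type) [Group Λ]
    (hΛ : ∀ (Q : Type) [Group Q] [Finite Q], (∃ f : Λ →* Q, Function.Surjective f) →
      ∃ f : Matrix.SpecialLinearGroup (Fin n) ℤ →* Q, Function.Surjective f)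
    (N : Subgroup Λ) [N.Normal] [N.FiniteIndex] (χ : N →* Multiplicative ℤ) (x : N) :
    χ x = 1 := by
  by_contra hx
  obtain ⟨B, hB⟩ := bound n hn N.index (Nat.pos_of_ne_zero Subgroup.FiniteIndex.index_ne_zero)
  set t : ℤ := Multiplicative.toAdd (χ x) with ht
  have ht0 : t ≠ 0 := fun h => hx (by
    apply Multiplicative.toAdd.injective
    rw [← ht, h]; rfl)
  let m : ℕ := t.natAbs * (B + 1)
  have hm0 : m ≠ 0 := Nat.mul_ne_zero (Int.natAbs_ne_zero.2 ht0) (Nat.succ_ne_zero B)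
  have : NeZero m := ⟨hm0⟩
  let ψ : N →* Multiplicative (ZMod m) :=
    (AddMonoidHom.toMultiplicative (Int.castAddHom (ZMod m))).comp χ
  have hψ : ∀ y : N, Multiplicative.toAdd (ψ y) = ((Multiplicative.toAdd (χ y) : ℤ) : ZMod m) :=
    fun y => rfl
  have hfin1 : ψ.ker.FiniteIndex := Subgroup.finiteIndex_ker ψ
  let K : Subgroup Λ := ψ.ker.map N.subtype
  have hK1 : K.index ≠ 0 := by
    have h1 := Subgroup.index_map_subtype ψ.ker
    rw [show K.index = ψ.ker.index * N.index from h1]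
    exact Nat.mul_ne_zero hfin1.index_ne_zero Subgroup.FiniteIndex.index_ne_zero
  have hKf : K.FiniteIndex := ⟨hK1⟩
  let P : Subgroup Λ := K.normalCore
  have hPf : P.FiniteIndex := Subgroup.finiteIndex_normalCore K
  have hPK : P ≤ K := Subgroup.normalCore_le K
  have hPn : P.Normal := Subgroup.normalCore_normal K
  have hcK : ⁅N, N⁆ ≤ K := by
    rw [Subgroup.commutator_le]
    intro a ha b hb
    refine ⟨⁅(⟨a, ha⟩ : N), (⟨b, hb⟩ : N)⁆, ?_, ?_⟩
    · rw [SetLike.mem_coe, MonoidHom.mem_ker, map_commutatorElement,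
        commutatorElement_eq_one_iff_mul_comm, mul_comm]
    · rfl
  have hcP : ⁅N, N⁆ ≤ P := Subgroup.normal_le_normalCore.2 hcK
  have hfQ : Finite (Λ ⧸ P) := Subgroup.finite_quotient_of_finiteIndex
  obtain ⟨f, hf⟩ := hΛ (Λ ⧸ P) ⟨QuotientGroup.mk' P, QuotientGroup.mk'_surjective P⟩
  have h1 := hB (Λ ⧸ P) f hf (N.map (QuotientGroup.mk' P)) (by
    intro z
    obtain ⟨g, rfl⟩ := QuotientGroup.mk'_surjective P z
    rw [← map_pow]
    exact Subgroup.mem_map_of_mem _ (N.pow_index_mem g)) (by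
    rintro _ ⟨a, ha, rfl⟩ _ ⟨b, hb, rfl⟩
    rw [← commutatorElement_eq_one_iff_mul_comm, ← map_commutatorElement]
    have h2 : ⁅a, b⁆ ∈ P := hcP (Subgroup.commutator_mem_commutator ha hb)
    exact (QuotientGroup.eq_one_iff _).2 h2)
  -- the order of `x` modulo `P`
  have h3 : (B + 1) ∣ orderOf (QuotientGroup.mk' P (x : Λ)) := by
    have h4 : (QuotientGroup.mk' P (x : Λ)) ^ orderOf (QuotientGroup.mk' P (x : Λ)) = 1 :=
      pow_orderOf_eq_one _
    set j := orderOf (QuotientGroup.mk' P (x : Λ)) with hj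
    rw [← map_pow] at h4
    have h5 : (x : Λ) ^ j ∈ P := (QuotientGroup.eq_one_iff _).1 h4
    obtain ⟨y, hy, hyx⟩ := hPK h5
    have h6 : y = x ^ j := Subtype.ext hyx
    rw [h6] at hy
    have h7 : ψ (x ^ j) = 1 := hy
    have h8 := hψ (x ^ j)
    rw [h7, map_pow, toAdd_pow, toAdd_one, ← ht, eq_comm, ZMod.intCast_zmod_eq_zero_iff_dvd] at h8
    have h9 : (m : ℤ) ∣ j * t := by simpa using h8
    have h10 : m ∣ j * t.natAbs := by
      have := Int.natAbs_dvd_natAbs.2 h9
      rwa [Int.natAbs_mul, Int.natAbs_natCast, Int.natAbs_natCast] at this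
    rw [mul_comm j] at h10
    exact Nat.dvd_of_mul_dvd_mul_left (Nat.pos_of_ne_zero (Int.natAbs_ne_zero.2 ht0)) h10
  have h4 : 0 < orderOf (QuotientGroup.mk' P (x : Λ)) := orderOf_pos _
  have h5 := Nat.le_of_dvd h4 h3
  have h6 : orderOf (QuotientGroup.mk' P (x : Λ)) ≤ Nat.card (Λ ⧸ P) := orderOf_le_card
  omega

end Pool.Agent.N702.AM.FAB

namespace Pool.Agent.N702.AM

theorem t_FAB : S_FAB := by
  intro n hn Λ _ hΛ N hN χ
  ext x
  rw [MonoidHom.one_apply]
  have hNc : N.normalCore.FiniteIndex := Subgroup.finiteIndex_normalCore N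
  let ι : N.normalCore →* N := Subgroup.inclusion (Subgroup.normalCore_le N)
  have h1 := FAB.normal n hn Λ hΛ N.normalCore (χ.comp ι)
    ⟨(x : Λ) ^ N.normalCore.index, N.normalCore.pow_index_mem (x : Λ)⟩
  have h2 : χ (x ^ N.normalCore.index) = 1 := h1
  rw [map_pow] at h2
  have h3 : N.normalCore.index ≠ 0 := hNc.index_ne_zero
  apply Multiplicative.toAdd.injective
  have h4 := congrArg Multiplicative.toAdd h2
  rw [toAdd_pow, toAdd_one, smul_eq_zero] at h4
  rcases h4 with h4 | h4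
  · exact absurd h4 h3
  · rw [h4]; rfl

end Pool.Agent.N702.AM
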