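import Pool.Agent.N702.AM.Stm

/-!
# Project AM, leaf GLUE (helper390): a cocycle on an amalgamated product
-/

set_option autoImplicit false

namespace Pool.Agent.N702.AM

namespace GLUE

/-- the semidirect product of the functions on `Q` with `Q` -/
@[ext]
structure HH (Q : Type) where
  /-- the function -/
  l : Q → ℤ
  /-- the element of the group -/
  q : Q

variable {Q : Type} [Group Q]

instance : Mul (HH Q) := ⟨fun a b => ⟨fun x => a.l x + b.l (x * a.q), a.q * b.q⟩⟩
instance : One (HH Q) := ⟨⟨fun _ => 0, 1⟩⟩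
instance : Inv (HH Q) := ⟨fun a => ⟨fun x => -a.l (x * a.q⁻¹), a.q⁻¹⟩⟩

theorem mul_l (a b : HH Q) (x : Q) : (a * b).l x = a.l x + b.l (x * a.q) := rfl
theorem mul_q (a b : HH Q) : (a * b).q = a.q * b.q := rfl
theorem one_l (x : Q) : (1 : HH Q).l x = 0 := rfl
theorem one_q : (1 : HH Q).q = 1 := rfl
theorem inv_l (a : HH Q) (x : Q) : (a⁻¹).l x = -a.l (x * a.q⁻¹) := rfl
theorem inv_q (a : HH Q) : (a⁻¹).q = a.q⁻¹ := rfl

instance : Group (HH Q) := Group.ofLeftAxioms
  (fun a b c => by
    ext x
    · rw [mul_l, mul_l, mul_l, mul_l, mul_q, mul_assoc, add_assoc]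
    · rw [mul_q, mul_q, mul_q, mul_q, mul_assoc])
  (fun a => by
    ext x
    · rw [mul_l, one_l, one_q, mul_one, zero_add]
    · rw [mul_q, one_q, one_mul])
  (fun a => by
    ext x
    · rw [mul_l, inv_l, inv_q, one_l]
      exact neg_add_cancel _
    · rw [mul_q, inv_q, one_q, inv_mul_cancel])

/-- the projection -/
def pr : HH Q →* Q where
  toFun a := a.q
  map_one' := rfl
  map_mul' _ _ := rfl

/-- the homomorphism on the first factor -/
def al {G : Type} [Group G] (π : G →* Q) : G →* HH Q where
  toFun a := ⟨fun _ => 0, π a⟩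
  map_one' := by
    ext x
    · rfl
    · exact map_one π
  map_mul' a b := by
    ext x
    · rw [mul_l, add_zero]
    · exact map_mul π a b

/-- the homomorphism on the second factor -/
def be {G : Type} [Group G] (π : G →* Q) (m : Q → ℤ) : G →* HH Q where
  toFun b := ⟨fun x => m x - m (x * π b), π b⟩
  map_one' := by
    ext x
    · show m x - m (x * π 1) = 0
      rw [map_one, mul_one, sub_self]
    · exact map_one π
  map_mul' a b := by
    ext x
    · rw [mul_l]
      show m x - m (x * π (a * b)) = m x - m (x * π a) + (m (x * π a) - m (x * π a * π b))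
      rw [map_mul, mul_assoc]
      ring
    · exact map_mul π a b

end GLUE

open GLUE in
theorem t_GLUE : S_GLUE := by
  classical
  intro G _ A B hAB Q _ _ π hπ hχ m hm
  have : Fintype Q := Fintype.ofFinite Q
  obtain ⟨γ, ⟨hγA, hγB⟩, _⟩ := hAB (HH Q) ((al π).comp A.subtype) ((be π m).comp B.subtype)
    (fun x ha hb => by
      ext y
      · show (0 : ℤ) = m y - m (y * π x)
        rw [hm x ⟨ha, hb⟩ y, sub_self]
      · rfl)
  -- the second component is `π`
  have hpr : pr.comp γ = π := by
    obtain ⟨δ, _, hδ⟩ := hAB Q (π.comp A.subtype) (π.comp B.subtype) (fun x ha hb => rfl)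
    have h1 : pr.comp γ = δ := hδ _ ⟨fun a => by
      show pr (γ a) = π a
      rw [hγA a]
      rfl, fun b => by
      show pr (γ b) = π b
      rw [hγB b]
      rfl⟩
    have h2 : π = δ := hδ _ ⟨fun a => rfl, fun b => rfl⟩
    rw [h1, h2]
  have hq : ∀ g, (γ g).q = π g := fun g => DFunLike.congr_fun hpr g
  -- the cocycle
  set d : G → Q → ℤ := fun g => (γ g).l with hd
  have hmul : ∀ g h x, d (g * h) x = d g x + d h (x * π g) := by
    intro g h x
    show (γ (g * h)).l x = _
    rw [map_mul, mul_l, hq]
  have hone : ∀ x, d 1 x = 0 := by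
    intro x
    show (γ 1).l x = 0
    rw [map_one]
    rfl
  -- it vanishes on the kernel
  have hker : ∀ g ∈ π.ker, ∀ x, d g x = 0 := by
    intro g hg x
    let χ : π.ker →* Multiplicative ℤ :=
      { toFun := fun h => Multiplicative.ofAdd (d h x)
        map_one' := by
          show Multiplicative.ofAdd (d 1 x) = 1
          rw [hone]
          rfl
        map_mul' := fun h h' => by
          show Multiplicative.ofAdd (d ((h : G) * h') x) = _
          rw [hmul, MonoidHom.mem_ker.1 h.2, mul_one]
          rfl }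
    have h1 : χ ⟨g, hg⟩ = 1 := by
      rw [hχ χ]
      rfl
    exact h1
  have hker2 : ∀ g h x, π h = 1 → d (g * h) x = d g x := by
    intro g h x hh
    rw [hmul, hker h (MonoidHom.mem_ker.2 hh), add_zero]
  have hdep : ∀ g h x, π g = π h → d g x = d h x := by
    intro g h x hgh
    have h1 : g = h * (h⁻¹ * g) := by group
    rw [h1]
    refine hker2 h _ x ?_
    rw [map_mul, map_inv, hgh, inv_mul_cancel]
  set σ : Q → G := Function.surjInv hπ with hσ
  have hπσ : ∀ q, π (σ q) = q := Function.surjInv_eq hπ
  set s : Q → ℤ := fun x => ∑ q, d (σ q) x with hs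
  have key : ∀ g x, (Fintype.card Q : ℤ) * d g x = s x - s (x * π g) := by
    intro g x
    have h1 : ∑ q, d (g * σ q) x = s x := by
      have h2 : ∀ q, d (g * σ q) x = d (σ (π g * q)) x := by
        intro q
        refine hdep _ _ x ?_
        rw [map_mul, hπσ, hπσ]
      rw [Finset.sum_congr rfl fun q _ => h2 q]
      exact Equiv.sum_comp (Equiv.mulLeft (π g)) fun q => d (σ q) x
    have h3 : ∑ q, d (g * σ q) x = (Fintype.card Q : ℤ) * d g x + s (x * π g) := by
      rw [Finset.sum_congr rfl fun q _ => hmul g (σ q) x, Finset.sum_add_distrib, Finset.sum_const,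
        Finset.card_univ, nsmul_eq_mul]
    linarith
  refine ⟨Fintype.card Q, s, fun x => (Fintype.card Q : ℤ) * m x - s x, ?_, ?_, ?_, ?_⟩
  · exact_mod_cast Fintype.card_ne_zero
  · intro a ha x
    have h1 : d a x = 0 := by
      show (γ a).l x = 0
      rw [hγA ⟨a, ha⟩]
      rfl
    have h2 := key a x
    rw [h1] at h2
    linarith
  · intro b hb x
    have h1 : d b x = m x - m (x * π b) := by
      show (γ b).l x = _
      rw [hγB ⟨b, hb⟩]
      rfl
    have h2 := key b x
    rw [h1] at h2
    linarith
  · intro x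
    ring

end Pool.Agent.N702.AM
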