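import Pool.Agent.N702.AM.COUNT
import Pool.Agent.N702.AM.GLUE
import Pool.Agent.N702.AM.FAB

/-!
# Project AM (helper702): the assembly
-/

set_option autoImplicit false

namespace Pool.Agent.N702.AM.Asm

open Pool.Agent.N702.AM

/-- the two vertex groups generate an amalgamated product -/
lemma sup_eq_top {G : Type} [Group G] {A B : Subgroup G} (h : IsAmalgam A B) : A ⊔ B = ⊤ := by
  rw [eq_top_iff]
  intro g _
  obtain ⟨γ, ⟨h1, h2⟩, -⟩ := h (A ⊔ B : Subgroup G) (Subgroup.inclusion le_sup_left)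
    (Subgroup.inclusion le_sup_right) (fun x ha hb => rfl)
  obtain ⟨δ, -, h3⟩ := h G A.subtype B.subtype (fun x ha hb => rfl)
  have h4 : (A ⊔ B : Subgroup G).subtype.comp γ = δ := h3 _ ⟨fun a => by
    rw [MonoidHom.comp_apply, h1]; rfl, fun b => by rw [MonoidHom.comp_apply, h2]; rfl⟩
  have h5 : MonoidHom.id G = δ := h3 _ ⟨fun a => rfl, fun b => rfl⟩
  have h6 : (A ⊔ B : Subgroup G).subtype.comp γ = MonoidHom.id G := h4.trans h5.symm
  have h7 : ((γ g : (A ⊔ B : Subgroup G)) : G) = g := DFunLike.congr_fun h6 g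
  rw [← h7]
  exact (γ g).2

/-- finite index subgroups have no homomorphisms to the integers -/
def Fab (G : Type) [Group G] : Prop :=
  ∀ N : Subgroup G, N.FiniteIndex → ∀ χ : N →* Multiplicative ℤ, χ = 1

lemma fab_sub {G : Type} [Group G] (h : Fab G) (K : Subgroup G) (hK : K.FiniteIndex) : Fab K := by
  intro N hN χ
  have h1 : (N.map K.subtype).FiniteIndex := ⟨by
    rw [Subgroup.index_map_subtype]
    exact Nat.mul_ne_zero hN.index_ne_zero hK.index_ne_zero⟩
  let e : N ≃* N.map K.subtype := N.equivMapOfInjective K.subtype K.subtype_injective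
  have h2 := h _ h1 (χ.comp e.symm.toMonoidHom)
  ext x
  have h3 := DFunLike.congr_fun h2 (e x)
  rw [MonoidHom.comp_apply] at h3
  have h4 : e.symm.toMonoidHom (e x) = x := e.symm_apply_apply x
  rw [h4] at h3
  rw [h3]
  rfl

/-- `A` and `A ⊓ B` have the same image modulo `N` -/
def Same {G : Type} [Group G] (A C N : Subgroup G) : Prop := ∀ a ∈ A, ∃ c ∈ C, c⁻¹ * a ∈ N

lemma Same.mono {G : Type} [Group G] {A C N N' : Subgroup G} (h : Same A C N) (hN : N ≤ N') :
    Same A C N' := fun a ha => by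
  obtain ⟨c, hc, h1⟩ := h a ha
  exact ⟨c, hc, hN h1⟩

/-- one finite quotient -/
lemma one_quotient {G : Type} [Group G] (hG : Fab G) {A B : Subgroup G} (h : IsAmalgam A B)
    (N : Subgroup G) [N.Normal] [N.FiniteIndex] : Same A (A ⊓ B) N ∨ Same B (A ⊓ B) N := by
  classical
  have hfQ : Finite (G ⧸ N) := Subgroup.finite_quotient_of_finiteIndex
  let π : G →* G ⧸ N := QuotientGroup.mk' N
  have hπ : Function.Surjective π := QuotientGroup.mk'_surjective N
  have hker : π.ker.FiniteIndex := by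
    rw [QuotientGroup.ker_mk']; infer_instance
  have h1 := t_GLUE G A B h (G ⧸ N) π hπ (hG _ hker)
  have key : ∀ D : Subgroup G, (A ⊓ B).map π = D.map π → Same D (A ⊓ B) N := by
    intro D hD a ha
    have h2 : π a ∈ (A ⊓ B).map π := by
      rw [hD]; exact Subgroup.mem_map_of_mem _ ha
    obtain ⟨c, hc, hca⟩ := h2
    exact ⟨c, hc, QuotientGroup.eq.1 hca⟩
  rcases t_COUNT (G ⧸ N) (A.map π) (B.map π) ((A ⊓ B).map π) (Subgroup.map_mono inf_le_left)
    (Subgroup.map_mono inf_le_right) (by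
      intro m hm
      obtain ⟨k, u, v, hk, hu, hv, huv⟩ := h1 m (fun c hc x =>
        hm (π c) (Subgroup.mem_map_of_mem _ hc) x)
      refine ⟨k, u, v, hk, ?_, ?_, huv⟩
      · rintro _ ⟨a, ha, rfl⟩ x
        exact hu a ha x
      · rintro _ ⟨b, hb, rfl⟩ x
        exact hv b hb x) with h2 | h2
  · exact Or.inl (key A h2)
  · exact Or.inr (key B h2)

/-- all finite quotients -/
lemma all_quotients {G : Type} [Group G] (hG : Fab G) {A B : Subgroup G} (h : IsAmalgam A B) :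
    (∀ N : Subgroup G, N.Normal → N.FiniteIndex → Same A (A ⊓ B) N) ∨
    (∀ N : Subgroup G, N.Normal → N.FiniteIndex → Same B (A ⊓ B) N) := by
  by_contra hcon
  push Not at hcon
  obtain ⟨⟨N₁, hn1, hf1, h1⟩, N₂, hn2, hf2, h2⟩ := hcon
  have hn : (N₁ ⊓ N₂).Normal := Subgroup.normal_inf_normal N₁ N₂
  have hf : (N₁ ⊓ N₂).FiniteIndex := inferInstance
  rcases one_quotient hG h (N₁ ⊓ N₂) with h3 | h3
  · exact h1 (h3.mono inf_le_left)
  · exact h2 (h3.mono inf_le_right)

/-- if `A` is in the closure of `A ⊓ B` then `B` is dense -/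
lemma dense {G : Type} [Group G] {A B : Subgroup G} (h : IsAmalgam A B) (N : Subgroup G)
    (hn : N.Normal) (hs : Same A (A ⊓ B) N) (x : G) : ∃ b ∈ B, b⁻¹ * x ∈ N := by
  have h1 : A ≤ B ⊔ N := by
    intro a ha
    obtain ⟨c, hc, hca⟩ := hs a ha
    have h2 : c * (c⁻¹ * a) ∈ B ⊔ N := Subgroup.mul_mem _ (Subgroup.mem_sup_left hc.2)
      (Subgroup.mem_sup_right hca)
    rwa [mul_inv_cancel_left] at h2
  have h2 : (⊤ : Subgroup G) ≤ B ⊔ N := by
    rw [← sup_eq_top h]
    exact sup_le h1 le_sup_left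
  have h3 : x ∈ B ⊔ N := h2 (Subgroup.mem_top x)
  obtain ⟨b, hb, y, hy, rfl⟩ := Subgroup.mem_sup_of_normal_right.1 h3
  exact ⟨b, hb, by rwa [inv_mul_cancel_left]⟩

lemma comm {G : Type} [Group G] {A B : Subgroup G} (h : IsAmalgam A B) : IsAmalgam B A := by
  intro H _ α β hαβ
  obtain ⟨γ, ⟨h1, h2⟩, h3⟩ := h H β α (fun x ha hb => (hαβ x hb ha).symm)
  exact ⟨γ, ⟨h2, h1⟩, fun δ hδ => h3 δ ⟨hδ.2, hδ.1⟩⟩

end Pool.Agent.N702.AM.Asm
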