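import Pool.Agent.N702.AM.Stm

/-!
# AM/COUNT: counting cosets in a finite group
-/

set_option autoImplicit false

namespace Pool.Agent.N702.AM

namespace CountAux

variable {Q : Type} [Group Q]

/-- A function on `Q` invariant under right translations by `A`, as a function on `Q ⧸ A`. -/
noncomputable def desc (A : Subgroup Q) (u : Q → ℤ) (k : ℤ) : (Q ⧸ A) → ℚ :=
  fun q => (u q.out : ℚ) / k

theorem desc_mk (A : Subgroup Q) (u : Q → ℤ) (k : ℤ) (hu : ∀ a ∈ A, ∀ x, u (x * a) = u x) (x : Q) :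
    desc A u k (x : Q ⧸ A) = (u x : ℚ) / k := by
  obtain ⟨h, hh⟩ := QuotientGroup.mk_out_eq_mul A x
  unfold desc
  rw [hh, hu h h.2]

/-- The map `(u, v) ↦ (x C ↦ u (x A) + v (x B))`. -/
noncomputable def T {A B C : Subgroup Q} (hA : C ≤ A) (hB : C ≤ B) :
    (((Q ⧸ A) → ℚ) × ((Q ⧸ B) → ℚ)) →ₗ[ℚ] ((Q ⧸ C) → ℚ) :=
  LinearMap.coprod (LinearMap.funLeft ℚ ℚ (Subgroup.quotientMapOfLE hA))
    (LinearMap.funLeft ℚ ℚ (Subgroup.quotientMapOfLE hB))

theorem T_mk {A B C : Subgroup Q} (hA : C ≤ A) (hB : C ≤ B) (u : (Q ⧸ A) → ℚ)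
    (v : (Q ⧸ B) → ℚ) (x : Q) :
    T hA hB (u, v) (x : Q ⧸ C) = u (x : Q ⧸ A) + v (x : Q ⧸ B) := by
  simp [T, LinearMap.funLeft_apply, Subgroup.quotientMapOfLE_apply_mk]

end CountAux

open CountAux in
theorem t_COUNT : S_COUNT := by
  classical
  intro Q _ _ A B C hA hB hm
  by_contra hcon
  push Not at hcon
  obtain ⟨hCA, hCB⟩ := hcon
  have : Fintype (Q ⧸ A) := Fintype.ofFinite _
  have : Fintype (Q ⧸ B) := Fintype.ofFinite _
  have : Fintype (Q ⧸ C) := Fintype.ofFinite _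
  have hsurj : LinearMap.range (T hA hB) = ⊤ := by
    rw [eq_top_iff]
    intro f _
    rw [pi_eq_sum_univ' f]
    refine Submodule.sum_mem _ fun z _ => Submodule.smul_mem _ _ ?_
    obtain ⟨k, u, v, hk, hu, hv, hmuv⟩ := hm (fun x => if (x : Q ⧸ C) = z then 1 else 0)
      (fun c hc x => by rw [QuotientGroup.mk_mul_of_mem x hc])
    refine ⟨(desc A u k, desc B v k), ?_⟩
    funext q
    obtain ⟨x, rfl⟩ := QuotientGroup.mk_surjective q
    rw [T_mk, desc_mk A u k hu, desc_mk B v k hv]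
    have h1 := hmuv x
    have hk' : (k : ℚ) ≠ 0 := by exact_mod_cast hk
    rw [← add_div, ← Int.cast_add, ← h1]
    by_cases hx : (x : Q ⧸ C) = z
    · simp [hx, hk']
    · simp [hx]
  have hker : LinearMap.ker (T hA hB) ≠ ⊥ := by
    intro h
    have h1 : ((fun _ => 1, fun _ => -1) : ((Q ⧸ A) → ℚ) × ((Q ⧸ B) → ℚ)) ∈
        LinearMap.ker (T hA hB) := by
      rw [LinearMap.mem_ker]
      funext q
      obtain ⟨x, rfl⟩ := QuotientGroup.mk_surjective q
      rw [T_mk]
      simp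
    rw [h, Submodule.mem_bot] at h1
    have h2 := congrFun (congrArg Prod.fst h1) ((1 : Q) : Q ⧸ A)
    simp at h2
  have h1 := LinearMap.finrank_range_add_finrank_ker (T hA hB)
  have h2 : 1 ≤ Module.finrank ℚ (LinearMap.ker (T hA hB)) := Submodule.one_le_finrank_iff.2 hker
  rw [hsurj, finrank_top, Module.finrank_prod, Module.finrank_fintype_fun_eq_card,
    Module.finrank_fintype_fun_eq_card, Module.finrank_fintype_fun_eq_card,
    ← Nat.card_eq_fintype_card, ← Nat.card_eq_fintype_card, ← Nat.card_eq_fintype_card] at h1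
  change C.index + _ = A.index + B.index at h1
  have h3 : C.relIndex A * A.index = C.index := Subgroup.relIndex_mul_index hA
  have h4 : C.relIndex B * B.index = C.index := Subgroup.relIndex_mul_index hB
  have hC0 : C.index ≠ 0 := Subgroup.index_ne_zero_of_finite
  have hA0 : C.relIndex A ≠ 0 := fun h => hC0 (by rw [← h3, h, Nat.zero_mul])
  have hB0 : C.relIndex B ≠ 0 := fun h => hC0 (by rw [← h4, h, Nat.zero_mul])
  have hA1 : C.relIndex A ≠ 1 := fun h => hCA (le_antisymm hA (Subgroup.relIndex_eq_one.1 h))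
  have hB1 : C.relIndex B ≠ 1 := fun h => hCB (le_antisymm hB (Subgroup.relIndex_eq_one.1 h))
  have hA2 : 2 ≤ C.relIndex A := by omega
  have hB2 : 2 ≤ C.relIndex B := by omega
  have h5 : 2 * A.index ≤ C.index := by
    rw [← h3]; exact Nat.mul_le_mul_right _ hA2
  have h6 : 2 * B.index ≤ C.index := by
    rw [← h4]; exact Nat.mul_le_mul_right _ hB2
  omega

end Pool.Agent.N702.AM
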