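import Mathlib

/-!
# Project AM (helper702): amalgamated products with the finite quotients of `SL_n(ℤ)`, `n ≥ 3`
(page MP_a2a22c_al)
-/

set_option autoImplicit false

namespace Pool.Agent.N702.AM

/-- `G` is the amalgamated product of its subgroups `A` and `B` over `A ∩ B` (universal property) -/
def IsAmalgam {G : Type} [Group G] (A B : Subgroup G) : Prop :=
  ∀ (H : Type) [Group H] (α : A →* H) (β : B →* H),
    (∀ (x : G) (ha : x ∈ A) (hb : x ∈ B), α ⟨x, ha⟩ = β ⟨x, hb⟩) →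
    ∃! γ : G →* H, (∀ a : A, γ a = α a) ∧ ∀ b : B, γ b = β b

/-- AM/COUNT: counting cosets -/
def S_COUNT : Prop := ∀ (Q : Type) [Group Q] [Finite Q] (A B C : Subgroup Q), C ≤ A → C ≤ B →
  (∀ m : Q → ℤ, (∀ c ∈ C, ∀ x, m (x * c) = m x) → ∃ (k : ℤ) (u v : Q → ℤ), k ≠ 0 ∧
    (∀ a ∈ A, ∀ x, u (x * a) = u x) ∧ (∀ b ∈ B, ∀ x, v (x * b) = v x) ∧
    ∀ x, k * m x = u x + v x) → C = A ∨ C = B

/-- AM/GLUE: a cocycle on an amalgamated product -/
def S_GLUE : Prop := ∀ (G : Type) [Group G] (A B : Subgroup G), IsAmalgam A B →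
  ∀ (Q : Type) [Group Q] [Finite Q] (π : G →* Q), Function.Surjective π →
  (∀ χ : π.ker →* Multiplicative ℤ, χ = 1) →
  ∀ m : Q → ℤ, (∀ c ∈ A ⊓ B, ∀ x, m (x * π c) = m x) → ∃ (k : ℤ) (u v : Q → ℤ), k ≠ 0 ∧
    (∀ a ∈ A, ∀ x, u (x * π a) = u x) ∧ (∀ b ∈ B, ∀ x, v (x * π b) = v x) ∧
    ∀ x, k * m x = u x + v x

/-- AM/FAB: finite index subgroups of groups with the finite quotients of `SL_n(ℤ)` have no
homomorphisms to the integers -/
def S_FAB : Prop := ∀ n : ℕ, 3 ≤ n → ∀ (Λ : Type) [Group Λ],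
  (∀ (Q : Type) [Group Q] [Finite Q], (∃ f : Λ →* Q, Function.Surjective f) →
    ∃ f : Matrix.SpecialLinearGroup (Fin n) ℤ →* Q, Function.Surjective f) →
  ∀ N : Subgroup Λ, N.FiniteIndex → ∀ χ : N →* Multiplicative ℤ, χ = 1

end Pool.Agent.N702.AM
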